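import Pool.Agent.H215.SM.L

set_option autoImplicit false

namespace Pool.Agent.Results.MP_9890f7_al.CommutativeCase

open Pool.Agent.Helper829.AF Pool.Agent.H215.SM

theorem result (k : ℕ) (M : Type) [AddCommGroup M] [Module ℂ M] [FiniteDimensional ℂ M]
    (B : Bimod (Fin k → ℂ) M) :
    AntiFrobenius B.mul ↔
      (∀ i, Even (B.m i i)) ∧ (∀ i j, B.m i j ≤ B.m j i + 1) ∧ B.graph.IsTree :=
  commutative B

end Pool.Agent.Results.MP_9890f7_al.CommutativeCase
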