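import Pool.Agent.H215.SM.Qv

set_option autoImplicit false

namespace Pool.Agent.Results.MP_9890f7_al.QuiverMoves

open Pool.Agent.H215.SM

theorem result (W : Type) [Fintype W] [DecidableEq W] (n : W → ℕ) (m : W → W → ℕ) (c : W → ℕ)
    (z : W) (a b : ℕ) :
    (a = (∑ w, c w * n w) + b →
      (QExact (sz a n) (inM m c) (some z) ↔ QExact (sz b n) (inM m c) (some z)) ∧
      (QExact (sz a n) (outM m c) (some z) ↔ QExact (sz b n) (outM m c) (some z))) ∧
    (a + b = ∑ w, c w * n w →
      (QExact (sz a n) (inM m c) (some z) ↔ QExact (sz b n) (outM m c) (some z))) ∧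
    (QExact (sz 0 n) (inM m c) (some z) ↔ QExact n m z) ∧
    (QExact (sz 0 n) (outM m c) (some z) ↔ QExact n m z) :=
  moves n m c z a b

end Pool.Agent.Results.MP_9890f7_al.QuiverMoves
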