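import Pool.Agent.H215.SM.L

set_option autoImplicit false

namespace Pool.Agent.Results.MP_9890f7_al.SkewReduction

open Pool.Agent.Helper829.AF Pool.Agent.H215.SM

theorem result (k : ℕ) (n : Fin k → ℕ) (M M₀ : Type) [AddCommGroup M] [Module ℂ M]
    [FiniteDimensional ℂ M] [AddCommGroup M₀] [Module ℂ M₀] [FiniteDimensional ℂ M₀]
    (B : Bimod (MatProd n) M) (B₀ : Bimod (MatProd n) M₀)
    (h : ∀ i j, mult B₀ i j = mult B i j - mult B j i) :
    AntiFrobenius B.mul ↔ (∀ i, Even (mult B i i)) ∧ Exact B₀.mul :=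
  general B B₀ h

end Pool.Agent.Results.MP_9890f7_al.SkewReduction
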